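import Pool.Agent.H474.MS.Stm3

/-! # Project MS (helper474), K7: no single frequency dominates (helper93) -/

set_option autoImplicit false

open MeasureTheory Filter Topology Set

namespace Pool.Agent.H93.MS.K7

open Pool.Agent.H474.MS

lemma term_summable {ι : Type} {w g : ι → ℝ} (D : Dat w g) (T : ℝ) :
    Summable (fun i => if g i ≤ T then w i * g i ^ 2 else 0) := by
  refine Summable.of_nonneg_of_le (fun i => ?_) (fun i => ?_) (D.ws.mul_right (T ^ 2))
  · split_ifs
    · exact mul_nonneg (D.w0 i) (sq_nonneg _)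
    · exact le_rfl
  · split_ifs with h
    · exact mul_le_mul_of_nonneg_left (pow_le_pow_left₀ (D.g0 i) h 2) (D.w0 i)
    · exact mul_nonneg (D.w0 i) (sq_nonneg _)

lemma jump {ι : Type} {w g : ι → ℝ} (D : Dat w g) {s : ℝ} (i : ι) (hs : s < g i) :
    w i * g i ^ 2 ≤ AA w g (g i) - AA w g s := by
  unfold AA
  rw [← (term_summable D (g i)).tsum_sub (term_summable D s)]
  have h1 : w i * g i ^ 2 = (fun j => (if g j ≤ g i then w j * g j ^ 2 else 0) -
      (if g j ≤ s then w j * g j ^ 2 else 0)) i := by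
    simp [not_le.mpr hs]
  rw [h1]
  refine Summable.le_tsum ((term_summable D (g i)).sub (term_summable D s)) i (fun j _ => ?_)
  have h2 : 0 ≤ w j * g j ^ 2 := mul_nonneg (D.w0 j) (sq_nonneg _)
  by_cases ha : g j ≤ s
  · have hb : g j ≤ g i := ha.trans hs.le
    simp [ha, hb]
  · by_cases hb : g j ≤ g i
    · simp only [ha, hb, if_true, if_false, sub_zero]
      exact h2
    · simp [ha, hb]

/-- a large frequency has a small share -/
lemma small {ι : Type} {w g : ι → ℝ} (D : Dat w g) {α : ℝ}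
    (hA : Tendsto (fun T => AA w g T / T) atTop (𝓝 α)) {e : ℝ} (he : 0 < e) :
    ∃ T₀ : ℝ, 1 ≤ T₀ ∧ ∀ i, T₀ ≤ g i → w i * g i ≤ e := by
  have h1 := Metric.tendsto_atTop.mp hA (e / 4) (by positivity)
  obtain ⟨N, hN⟩ := h1
  set T₁ : ℝ := max N 1 with hT₁
  have hT₁1 : 1 ≤ T₁ := le_max_right _ _
  have hT₁N : N ≤ T₁ := le_max_left _ _
  have hbd : ∀ T : ℝ, T₁ ≤ T → |AA w g T - α * T| ≤ e / 4 * T := by
    intro T hT
    have hT0 : 0 < T := by linarith
    have h2 := hN T (hT₁N.trans hT)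
    rw [Real.dist_eq] at h2
    have h3 : AA w g T - α * T = (AA w g T / T - α) * T := by
      field_simp
    rw [h3, abs_mul, abs_of_pos hT0]
    exact mul_le_mul_of_nonneg_right h2.le hT0.le
  refine ⟨2 * T₁, by linarith, fun i hi => ?_⟩
  have hg0 : 0 < g i := by linarith
  -- the step
  set η : ℝ := min (1 / 2) (e / (2 * (|α| + 1))) with hη
  have hα1 : 0 < |α| + 1 := by positivity
  have hη0 : 0 < η := lt_min (by norm_num) (by positivity)
  have hη1 : η ≤ 1 / 2 := min_le_left _ _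
  have hη2 : |α| * η ≤ e / 2 := by
    have h4 : η ≤ e / (2 * (|α| + 1)) := min_le_right _ _
    calc |α| * η ≤ (|α| + 1) * (e / (2 * (|α| + 1))) :=
          mul_le_mul (by linarith) h4 hη0.le hα1.le
      _ = e / 2 := by field_simp
  have hs1 : (1 - η) * g i < g i := by nlinarith
  have hs2 : T₁ ≤ (1 - η) * g i := by nlinarith
  have hj := jump D i hs1
  have hb1 := hbd (g i) (by linarith)
  have hb2 := hbd ((1 - η) * g i) hs2
  rw [abs_le] at hb1 hb2
  have h5 : α * (η * g i) ≤ |α| * η * g i := by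
    rw [mul_assoc]
    exact mul_le_mul_of_nonneg_right (le_abs_self α) (by positivity)
  have h6 : |α| * η * g i ≤ e / 2 * g i := mul_le_mul_of_nonneg_right hη2 hg0.le
  have h7 : w i * g i ^ 2 ≤ e * g i := by
    have h8 : e / 4 * ((1 - η) * g i) ≤ e / 4 * g i := by
      apply mul_le_mul_of_nonneg_left hs1.le (by positivity)
    nlinarith [hb1.2, hb2.1]
  have h9 : w i * g i * g i ≤ e * g i := by
    calc w i * g i * g i = w i * g i ^ 2 := by ring
      _ ≤ e * g i := h7
  exact le_of_mul_le_mul_right h9 hg0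

theorem t_K7 : Pool.Agent.H474.MS.S_K7 := by
  intro ι _ w g D α hA ε hε
  obtain ⟨T₀, hT₀, hsm⟩ := small D hA (e := ε / 2) (by positivity)
  set W : ℝ := ∑' i, w i with hW
  have hW0 : 0 ≤ W := tsum_nonneg D.w0
  have hwW : ∀ i, w i ≤ W := fun i => Summable.le_tsum D.ws i (fun j _ => D.w0 j)
  have hQ : 0 < W * T₀ ^ 2 + 1 := by positivity
  have hev : ∀ᶠ h : ℝ in 𝓝[>] 0, h ∈ Ioc (0 : ℝ) (ε / (W * T₀ ^ 2 + 1)) :=
    Ioc_mem_nhdsGT (by positivity)
  filter_upwards [hev] with h hh i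
  have hh0 : 0 < h := hh.1
  have hh1 : h ≤ ε / (W * T₀ ^ 2 + 1) := hh.2
  have hw := D.w0 i
  have hg := D.g0 i
  by_cases hi : T₀ ≤ g i
  · have h1 := hsm i hi
    have hx : 0 ≤ g i * h := mul_nonneg hg hh0.le
    have h2 : min 4 (g i ^ 2 * h ^ 2) ≤ 2 * (g i * h) := by
      by_cases hc : g i * h ≤ 2
      · refine (min_le_right _ _).trans ?_
        nlinarith
      · refine (min_le_left _ _).trans ?_
        rw [not_le] at hc
        linarith
    calc w i * min 4 (g i ^ 2 * h ^ 2) ≤ w i * (2 * (g i * h)) := mul_le_mul_of_nonneg_left h2 hw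
      _ = 2 * (w i * g i) * h := by ring
      _ ≤ 2 * (ε / 2) * h := by
          apply mul_le_mul_of_nonneg_right _ hh0.le
          linarith
      _ = ε * h := by ring
  · rw [not_le] at hi
    have h3 : (W * T₀ ^ 2 + 1) * h ≤ ε := by
      rw [mul_comm]
      exact (le_div_iff₀ hQ).mp hh1
    have h4 : g i ^ 2 ≤ T₀ ^ 2 := pow_le_pow_left₀ hg hi.le 2
    calc w i * min 4 (g i ^ 2 * h ^ 2) ≤ w i * (g i ^ 2 * h ^ 2) :=
          mul_le_mul_of_nonneg_left (min_le_right _ _) hw
      _ ≤ W * (T₀ ^ 2 * h ^ 2) := by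
          apply mul_le_mul (hwW i) _ (by positivity) hW0
          exact mul_le_mul_of_nonneg_right h4 (by positivity)
      _ = (W * T₀ ^ 2 * h) * h := by ring
      _ ≤ ε * h := by
          apply mul_le_mul_of_nonneg_right _ hh0.le
          nlinarith

end Pool.Agent.H93.MS.K7
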